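import Pool.Agent.Work.MP_a6eddd_al.Prim

set_option autoImplicit false

/-!
The family of counterexamples: even sign changes and cyclic shifts of the coordinates of `F_p^3`
for all primes `p ≥ 5`.
-/

namespace Pool.Agent.Work.MP_a6eddd_al

variable (p : ℕ)

/-- membership condition for the group of even sign changes and cyclic shifts -/
def IsMonP (e : Equiv.Perm (Fin 3 → ZMod p)) : Prop :=
  ∃ (s : Fin 3 → ZMod p) (k : Fin 3), (∀ i, s i * s i = 1) ∧ s 0 * s 1 * s 2 = 1 ∧
    ∀ v j, e v j = s j * v (j + k)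

theorem prod_shiftP (s : Fin 3 → ZMod p) (k : Fin 3) :
    s (0 + k) * s (1 + k) * s (2 + k) = s 0 * s 1 * s 2 := by
  fin_cases k
  · rfl
  · change s 1 * s 2 * s 0 = _
    ring
  · change s 2 * s 0 * s 1 = _
    ring

/-- even sign changes and cyclic shifts -/
def KP : Subgroup (Equiv.Perm (Fin 3 → ZMod p)) where
  carrier := {e | IsMonP p e}
  mul_mem' := by
    rintro e e' ⟨s, k, h1, h2, h3⟩ ⟨s', k', h1', h2', h3'⟩
    refine ⟨fun j => s j * s' (j + k), k + k', ?_, ?_, ?_⟩
    · intro i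
      have a := h1 i
      have b := h1' (i + k)
      calc s i * s' (i + k) * (s i * s' (i + k)) = (s i * s i) * (s' (i + k) * s' (i + k)) := by
            ring
        _ = 1 := by rw [a, b, one_mul]
    · have a := prod_shiftP p s' k
      calc s 0 * s' (0 + k) * (s 1 * s' (1 + k)) * (s 2 * s' (2 + k))
          = (s 0 * s 1 * s 2) * (s' (0 + k) * s' (1 + k) * s' (2 + k)) := by ring
        _ = 1 := by rw [a, h2, h2', one_mul]
    · intro v j
      rw [Equiv.Perm.mul_apply, h3, h3']
      rw [mul_assoc, add_assoc]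
  one_mem' := ⟨fun _ => 1, 0, by simp, by simp, by simp⟩
  inv_mem' := by
    rintro e ⟨s, k, h1, h2, h3⟩
    refine ⟨fun j => s (j + -k), -k, fun i => h1 _, ?_, ?_⟩
    · rw [prod_shiftP p s (-k), h2]
    · intro v j
      have a := h3 (e⁻¹ v) (j + -k)
      rw [app_inv] at a
      rw [a, ← mul_assoc, h1, one_mul]
      rw [add_assoc, neg_add_cancel, add_zero]

theorem KP_add : ∀ g ∈ KP p, ∀ x y : Fin 3 → ZMod p, g (x + y) = g x + g y := by
  rintro g ⟨s, k, h1, h2, h3⟩ x y
  funext j
  rw [h3, Pi.add_apply, Pi.add_apply, h3, h3, mul_add]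

/-- a diagonal or shifted element of the group -/
def monP (s : Fin 3 → ZMod p) (hs : ∀ i, s i * s i = 1) (k : Fin 3) :
    Equiv.Perm (Fin 3 → ZMod p) where
  toFun v j := s j * v (j + k)
  invFun v j := s (j + -k) * v (j + -k)
  left_inv v := by
    funext j
    simp only
    rw [← mul_assoc, hs, one_mul]
    congr 1
    rw [add_assoc, neg_add_cancel, add_zero]
  right_inv v := by
    funext j
    simp only
    have e : j + k + -k = j := by rw [add_assoc, add_neg_cancel, add_zero]
    rw [e, ← mul_assoc, hs, one_mul]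

theorem monP_mem (s : Fin 3 → ZMod p) (hs : ∀ i, s i * s i = 1) (h : s 0 * s 1 * s 2 = 1)
    (k : Fin 3) : monP p s hs k ∈ KP p := ⟨s, k, hs, h, fun _ _ => rfl⟩

section prime

variable [hpf : Fact p.Prime] (hp : 5 ≤ p)

include hp in
theorem natCast_ne (n : ℕ) (h0 : 0 < n) (hn : n < 5) : ((n : ℕ) : ZMod p) ≠ 0 := by
  intro h
  rw [ZMod.natCast_eq_zero_iff] at h
  have := Nat.le_of_dvd h0 h
  omega

include hp in
theorem two_ne : (2 : ZMod p) ≠ 0 := by
  have := natCast_ne p hp 2 (by norm_num) (by norm_num)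
  exact_mod_cast this

include hp in
theorem three_ne : (3 : ZMod p) ≠ 0 := by
  have := natCast_ne p hp 3 (by norm_num) (by norm_num)
  exact_mod_cast this

include hp in
theorem KP_reg : ∀ g ∈ KP p, g (![0, 1, 2] : Fin 3 → ZMod p) = ![0, 1, 2] → g = 1 := by
  rintro g ⟨s, k, h1, h2, h3⟩ h
  have e0 := congrFun h 0
  have e1 := congrFun h 1
  have e2 := congrFun h 2
  rw [h3] at e0 e1 e2
  fin_cases k
  · have a1 : s 1 = 1 := by
      change s 1 * 1 = 1 at e1
      simpa using e1
    have a2 : s 2 = 1 := by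
      change s 2 * 2 = 2 at e2
      have h5 : (s 2 - 1) * 2 = 0 := by linear_combination e2
      rcases mul_eq_zero.mp h5 with h6 | h6
      · exact sub_eq_zero.mp h6
      · exact absurd h6 (two_ne p hp)
    have a0 : s 0 = 1 := by
      rw [a1, a2] at h2
      simpa using h2
    ext1 v
    funext j
    rw [h3]
    fin_cases j
    · change s 0 * v 0 = v 0
      rw [a0, one_mul]
    · change s 1 * v 1 = v 1
      rw [a1, one_mul]
    · change s 2 * v 2 = v 2
      rw [a2, one_mul]
  · exfalso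
    change s 0 * 1 = 0 at e0
    have b := h1 0
    rw [mul_one] at e0
    rw [e0] at b
    simp at b
  · exfalso
    change s 0 * 2 = 0 at e0
    have b := h1 0
    rcases mul_eq_zero.mp e0 with h6 | h6
    · rw [h6] at b
      simp at b
    · exact two_ne p hp h6

include hp in
theorem KP_hv0 : ∀ g ∈ KP p, ∀ w : Fin 3 → ZMod p, g w - w ≠ ![1, 1, 1] := by
  rintro g ⟨s, k, h1, h2, h3⟩ w h
  have e0 := congrFun h 0
  have e1 := congrFun h 1
  have e2 := congrFun h 2
  rw [Pi.sub_apply, h3] at e0 e1 e2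
  have key : ∀ a b c : ZMod p, a * a = 1 → b * b = 1 → 1 + a + a * b = 0 → False := by
    intro a b c ha hb hab
    rcases mul_self_eq_one_iff.mp ha with rfl | rfl <;>
      rcases mul_self_eq_one_iff.mp hb with rfl | rfl
    · apply three_ne p hp
      linear_combination hab
    · apply one_ne_zero (α := ZMod p)
      linear_combination hab
    · apply one_ne_zero (α := ZMod p)
      linear_combination -hab
    · apply one_ne_zero (α := ZMod p)
      linear_combination hab
  fin_cases k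
  · change s 0 * w 0 - w 0 = 1 at e0
    change s 1 * w 1 - w 1 = 1 at e1
    change s 2 * w 2 - w 2 = 1 at e2
    have n : ∀ x y : ZMod p, x * x = 1 → x * y - y = 1 → x = -1 := by
      intro x y hx hxy
      rcases mul_self_eq_one_iff.mp hx with rfl | rfl
      · exfalso
        apply one_ne_zero (α := ZMod p)
        linear_combination -hxy
      · rfl
    rw [n _ _ (h1 0) e0, n _ _ (h1 1) e1, n _ _ (h1 2) e2] at h2
    apply two_ne p hp
    linear_combination -h2
  · change s 0 * w 1 - w 0 = 1 at e0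
    change s 1 * w 2 - w 1 = 1 at e1
    change s 2 * w 0 - w 2 = 1 at e2
    apply key (s 0) (s 1) (s 2) (h1 0) (h1 1)
    linear_combination (-1 : ZMod p) * e0 - s 0 * e1 - s 0 * s 1 * e2 + w 0 * h2
  · change s 0 * w 2 - w 0 = 1 at e0
    change s 1 * w 0 - w 1 = 1 at e1
    change s 2 * w 1 - w 2 = 1 at e2
    apply key (s 0) (s 2) (s 1) (h1 0) (h1 2)
    linear_combination (-1 : ZMod p) * e0 - s 0 * e2 - s 0 * s 2 * e1 + w 0 * h2

include hp in
theorem KP_irr (A : AddSubgroup (Fin 3 → ZMod p)) (hA : ∀ g ∈ KP p, ∀ x ∈ A, g x ∈ A) :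
    A = ⊥ ∨ A = ⊤ := by
  by_cases hbot : A = ⊥
  · exact Or.inl hbot
  right
  obtain ⟨w, hw, hw0⟩ : ∃ w ∈ A, w ≠ 0 := by
    by_contra hcon
    push Not at hcon
    exact hbot ((AddSubgroup.eq_bot_iff_forall A).mpr hcon)
  obtain ⟨j, hj⟩ : ∃ j, w j ≠ 0 := by
    by_contra hcon
    push Not at hcon
    exact hw0 (funext hcon)
  -- the diagonal element fixing coordinate `j`
  have hs : ∀ i, (fun i => if i = j then (1 : ZMod p) else -1) i *
      (fun i => if i = j then (1 : ZMod p) else -1) i = 1 := by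
    intro i
    by_cases hi : i = j <;> simp [hi]
  have hpr : (fun i => if i = j then (1 : ZMod p) else -1) 0 *
      (fun i => if i = j then (1 : ZMod p) else -1) 1 *
      (fun i => if i = j then (1 : ZMod p) else -1) 2 = 1 := by
    fin_cases j <;> simp
  have h1 := hA _ (monP_mem p _ hs hpr 0) w hw
  have h2 : (Pi.single j (2 * w j) : Fin 3 → ZMod p) ∈ A := by
    have h3 := A.add_mem h1 hw
    convert h3 using 1
    funext i
    by_cases hi : i = j
    · subst hi
      simp [monP]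
      ring
    · simp [monP, hi]
  have hcyc : ∀ x : ZMod p, (Pi.single j x : Fin 3 → ZMod p) ∈ A := by
    intro x
    have h3 : x = ((x * (2 * w j)⁻¹).val : ZMod p) * (2 * w j) := by
      rw [ZMod.natCast_zmod_val, mul_assoc, inv_mul_cancel₀, mul_one]
      exact mul_ne_zero (two_ne p hp) hj
    have h4 := A.nsmul_mem h2 (x * (2 * w j)⁻¹).val
    rw [← Pi.single_smul, nsmul_eq_mul, ← h3] at h4
    exact h4
  have hall : ∀ (i : Fin 3) (x : ZMod p), (Pi.single i x : Fin 3 → ZMod p) ∈ A := by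
    intro i x
    have h3 := hA _ (monP_mem p (fun _ => 1) (by simp) (by simp) (j - i)) _ (hcyc x)
    convert h3 using 1
    funext l
    have h4 : l + (j - i) = j ↔ l = i := by
      have : ∀ l i j : Fin 3, l + (j - i) = j ↔ l = i := by decide
      exact this l i j
    by_cases hl : l = i
    · have h5 := h4.mpr hl
      simp only [monP, Equiv.coe_fn_mk, one_mul, h5, Pi.single_eq_same]
      rw [hl, Pi.single_eq_same]
    · have h5 : l + (j - i) ≠ j := fun h => hl (h4.mp h)
      simp only [monP, Equiv.coe_fn_mk, one_mul]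
      rw [Pi.single_eq_of_ne hl, Pi.single_eq_of_ne h5]
  rw [eq_top_iff]
  intro x _
  rw [← Finset.univ_sum_single x]
  exact A.sum_mem (fun i _ => hall i (x i))

theorem KP_nontrivial : ∃ g ∈ KP p, g ≠ 1 := by
  refine ⟨monP p (fun _ => 1) (by simp) 1, monP_mem p _ (by simp) (by simp) 1, ?_⟩
  intro h
  have h1 := congrFun (congrArg
    (fun f : Equiv.Perm (Fin 3 → ZMod p) => f ![0, 1, 2]) h) 0
  change (1 : ZMod p) * 1 = 0 at h1
  simp at h1

include hp in
theorem family :
    ∃ (ι : Type) (_ : Finite ι) (G : Subgroup (Equiv.Perm (ι → Fin 3 → ZMod p))),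
      (∀ t : ι → Fin 3 → ZMod p, Equiv.addRight t ∈ G) ∧
      MulAction.IsPreprimitive G (ι → Fin 3 → ZMod p) ∧
      (∃ B : Finset (ι → Fin 3 → ZMod p), B.card = 2 ∧
        ∀ g ∈ G, (∀ x ∈ B, g x = x) → g = 1) ∧
      (∀ B : Finset (ι → Fin 3 → ZMod p), (∀ g ∈ G, (∀ x ∈ B, g x = x) → g = 1) →
        2 ≤ B.card) ∧
      ∃ α β : ι → Fin 3 → ZMod p, α ≠ β ∧ ∀ γ : ι → Fin 3 → ZMod p,
        ¬ ((γ ≠ α ∧ ∃ B : Finset (ι → Fin 3 → ZMod p), B.card = 2 ∧ α ∈ B ∧ γ ∈ B ∧
            ∀ g ∈ G, (∀ x ∈ B, g x = x) → g = 1) ∧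
        (γ ≠ β ∧ ∃ B : Finset (ι → Fin 3 → ZMod p), B.card = 2 ∧ β ∈ B ∧ γ ∈ B ∧
            ∀ g ∈ G, (∀ x ∈ B, g x = x) → g = 1)) := by
  obtain ⟨g0, hg0, hg0'⟩ := KP_nontrivial p
  classical
  have : Finite (Reg (KP p)) := by
    unfold Reg; infer_instance
  have : Finite (Idx (KP p)) := by
    unfold Idx; infer_instance
  have : Fintype (Idx (KP p)) := Fintype.ofFinite _
  obtain ⟨h1, h2, h3, h4⟩ := general_facts (KP p) (KP_add p) (KP_irr p hp) hg0 hg0'
    (KP_reg p hp) (KP_hv0 p hp)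
  refine ⟨Idx (KP p), inferInstance, wr (KP p) (KP_add p) (Idx (KP p)), ?_, h1, h2, h3, h4⟩
  intro t
  have h5 := trans_mem (KP p) (KP_add p) t
  have h6 : mk 1 (fun _ => (1 : Equiv.Perm (Fin 3 → ZMod p))) t = Equiv.addRight t := by
    ext1 x
    rw [trans_apply]
    rfl
  rwa [h6] at h5

end prime

end Pool.Agent.Work.MP_a6eddd_al
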