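import Pool.Agent.Work.MP_a6eddd_al.Prim

set_option autoImplicit false

/-!
The concrete group: even sign changes and cyclic shifts of the coordinates of `F_5^3`
(a copy of the alternating group of degree four).
-/

namespace Pool.Agent.Work.MP_a6eddd_al

/-- the natural module -/
abbrev V5 : Type := Fin 3 → ZMod 5

/-- membership condition for the group of even sign changes and cyclic shifts -/
def IsMon (e : Equiv.Perm V5) : Prop :=
  ∃ (s : Fin 3 → ZMod 5) (k : Fin 3), (∀ i, s i * s i = 1) ∧ s 0 * s 1 * s 2 = 1 ∧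
    ∀ v j, e v j = s j * v (j + k)

theorem prod_shift (s : Fin 3 → ZMod 5) (k : Fin 3) :
    s (0 + k) * s (1 + k) * s (2 + k) = s 0 * s 1 * s 2 := by
  fin_cases k
  · rfl
  · change s 1 * s 2 * s 0 = _
    ring
  · change s 2 * s 0 * s 1 = _
    ring

/-- even sign changes and cyclic shifts -/
def K5 : Subgroup (Equiv.Perm V5) where
  carrier := {e | IsMon e}
  mul_mem' := by
    rintro e e' ⟨s, k, h1, h2, h3⟩ ⟨s', k', h1', h2', h3'⟩
    refine ⟨fun j => s j * s' (j + k), k + k', ?_, ?_, ?_⟩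
    · intro i
      have a := h1 i
      have b := h1' (i + k)
      calc s i * s' (i + k) * (s i * s' (i + k)) = (s i * s i) * (s' (i + k) * s' (i + k)) := by
            ring
        _ = 1 := by rw [a, b, one_mul]
    · have a := prod_shift s' k
      calc s 0 * s' (0 + k) * (s 1 * s' (1 + k)) * (s 2 * s' (2 + k))
          = (s 0 * s 1 * s 2) * (s' (0 + k) * s' (1 + k) * s' (2 + k)) := by ring
        _ = 1 := by rw [a, h2, h2', one_mul]
    · intro v j
      rw [Equiv.Perm.mul_apply, h3, h3']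
      rw [mul_assoc, add_assoc]
  one_mem' := ⟨fun _ => 1, 0, by simp, by simp, by simp⟩
  inv_mem' := by
    rintro e ⟨s, k, h1, h2, h3⟩
    refine ⟨fun j => s (j + -k), -k, fun i => h1 _, ?_, ?_⟩
    · rw [prod_shift s (-k), h2]
    · intro v j
      have a := h3 (e⁻¹ v) (j + -k)
      rw [app_inv] at a
      rw [a, ← mul_assoc, h1, one_mul]
      rw [add_assoc, neg_add_cancel, add_zero]

theorem K5_add : ∀ g ∈ K5, ∀ x y : V5, g (x + y) = g x + g y := by
  rintro g ⟨s, k, h1, h2, h3⟩ x y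
  funext j
  rw [h3, Pi.add_apply, Pi.add_apply, h3, h3, mul_add]

/-- a diagonal or shifted element of the group -/
def mon (s : Fin 3 → ZMod 5) (hs : ∀ i, s i * s i = 1) (k : Fin 3) : Equiv.Perm V5 where
  toFun v j := s j * v (j + k)
  invFun v j := s (j + -k) * v (j + -k)
  left_inv v := by
    funext j
    simp only
    rw [← mul_assoc, hs, one_mul]
    congr 1
    rw [add_assoc, neg_add_cancel, add_zero]
  right_inv v := by
    funext j
    simp only
    have e : j + k + -k = j := by rw [add_assoc, add_neg_cancel, add_zero]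
    rw [e, ← mul_assoc, hs, one_mul]

theorem mon_mem (s : Fin 3 → ZMod 5) (hs : ∀ i, s i * s i = 1) (h : s 0 * s 1 * s 2 = 1)
    (k : Fin 3) : mon s hs k ∈ K5 := ⟨s, k, hs, h, fun _ _ => rfl⟩

theorem sign_cases (x : ZMod 5) (h : x * x = 1) : x = 1 ∨ x = -1 := by
  revert x
  decide

theorem K5_reg : ∀ g ∈ K5, g (![0, 1, 2] : V5) = ![0, 1, 2] → g = 1 := by
  rintro g ⟨s, k, h1, h2, h3⟩ h
  have e0 := congrFun h 0
  have e1 := congrFun h 1
  have e2 := congrFun h 2
  rw [h3] at e0 e1 e2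
  fin_cases k
  · have a1 : s 1 = 1 := by
      change s 1 * 1 = 1 at e1
      simpa using e1
    have a2 : s 2 = 1 := by
      change s 2 * 2 = 2 at e2
      have : ∀ x : ZMod 5, x * 2 = 2 → x = 1 := by decide
      exact this _ e2
    have a0 : s 0 = 1 := by
      rw [a1, a2] at h2
      simpa using h2
    ext v j
    rw [h3]
    fin_cases j
    · change s 0 * v 0 = v 0
      rw [a0, one_mul]
    · change s 1 * v 1 = v 1
      rw [a1, one_mul]
    · change s 2 * v 2 = v 2
      rw [a2, one_mul]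
  · exfalso
    change s 0 * 1 = 0 at e0
    have b := h1 0
    rw [mul_one] at e0
    rw [e0] at b
    revert b; decide
  · exfalso
    change s 0 * 2 = 0 at e0
    have b := h1 0
    have : ∀ x : ZMod 5, x * 2 = 0 → x * x = 1 → False := by decide
    exact this _ e0 b

theorem K5_hv0 : ∀ g ∈ K5, ∀ w : V5, g w - w ≠ ![1, 1, 1] := by
  rintro g ⟨s, k, h1, h2, h3⟩ w h
  have e0 := congrFun h 0
  have e1 := congrFun h 1
  have e2 := congrFun h 2
  rw [Pi.sub_apply, h3] at e0 e1 e2
  have key : ∀ a b c : ZMod 5, a * a = 1 → b * b = 1 → 1 + a + a * b = 0 → False := by decide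
  fin_cases k
  · change s 0 * w 0 - w 0 = 1 at e0
    change s 1 * w 1 - w 1 = 1 at e1
    change s 2 * w 2 - w 2 = 1 at e2
    have n : ∀ x y : ZMod 5, x * x = 1 → x * y - y = 1 → x = -1 := by decide
    rw [n _ _ (h1 0) e0, n _ _ (h1 1) e1, n _ _ (h1 2) e2] at h2
    revert h2; decide
  · change s 0 * w 1 - w 0 = 1 at e0
    change s 1 * w 2 - w 1 = 1 at e1
    change s 2 * w 0 - w 2 = 1 at e2
    apply key (s 0) (s 1) (s 2) (h1 0) (h1 1)
    linear_combination (-1 : ZMod 5) * e0 - s 0 * e1 - s 0 * s 1 * e2 + w 0 * h2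
  · change s 0 * w 2 - w 0 = 1 at e0
    change s 1 * w 0 - w 1 = 1 at e1
    change s 2 * w 1 - w 2 = 1 at e2
    apply key (s 0) (s 2) (s 1) (h1 0) (h1 2)
    linear_combination (-1 : ZMod 5) * e0 - s 0 * e2 - s 0 * s 2 * e1 + w 0 * h2

theorem K5_irr (A : AddSubgroup V5) (hA : ∀ g ∈ K5, ∀ x ∈ A, g x ∈ A) : A = ⊥ ∨ A = ⊤ := by
  by_cases hbot : A = ⊥
  · exact Or.inl hbot
  right
  obtain ⟨w, hw, hw0⟩ : ∃ w ∈ A, w ≠ 0 := by
    by_contra hcon
    push Not at hcon
    exact hbot ((AddSubgroup.eq_bot_iff_forall A).mpr hcon)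
  obtain ⟨j, hj⟩ : ∃ j, w j ≠ 0 := by
    by_contra hcon
    push Not at hcon
    exact hw0 (funext hcon)
  -- the diagonal element fixing coordinate `j`
  have hs : ∀ i, (fun i => if i = j then (1 : ZMod 5) else -1) i *
      (fun i => if i = j then (1 : ZMod 5) else -1) i = 1 := by
    intro i
    by_cases hi : i = j <;> simp [hi]
  have hp : (fun i => if i = j then (1 : ZMod 5) else -1) 0 *
      (fun i => if i = j then (1 : ZMod 5) else -1) 1 *
      (fun i => if i = j then (1 : ZMod 5) else -1) 2 = 1 := by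
    fin_cases j <;> decide
  have h1 := hA _ (mon_mem _ hs hp 0) w hw
  have h2 : (Pi.single j (2 * w j) : V5) ∈ A := by
    have h3 := A.add_mem h1 hw
    convert h3 using 1
    funext i
    by_cases hi : i = j
    · subst hi
      simp [mon]
      ring
    · simp [mon, hi]
  have hcyc : ∀ x : ZMod 5, (Pi.single j x : V5) ∈ A := by
    intro x
    have h3 : ∀ c y : ZMod 5, c ≠ 0 → ∃ n : Fin 5, y = (n.val : ZMod 5) * (2 * c) := by decide
    obtain ⟨n, hn⟩ := h3 (w j) x hj
    have h4 := A.nsmul_mem h2 n.val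
    rw [← Pi.single_smul, nsmul_eq_mul, ← hn] at h4
    exact h4
  have hall : ∀ (i : Fin 3) (x : ZMod 5), (Pi.single i x : V5) ∈ A := by
    intro i x
    have h3 := hA _ (mon_mem (fun _ => 1) (by simp) (by simp) (j - i)) _ (hcyc x)
    convert h3 using 1
    funext l
    have h4 : l + (j - i) = j ↔ l = i := by
      have : ∀ l i j : Fin 3, l + (j - i) = j ↔ l = i := by decide
      exact this l i j
    by_cases hl : l = i
    · have h5 := h4.mpr hl
      simp only [mon, Equiv.coe_fn_mk, one_mul, h5, Pi.single_eq_same]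
      rw [hl, Pi.single_eq_same]
    · have h5 : l + (j - i) ≠ j := fun h => hl (h4.mp h)
      simp only [mon, Equiv.coe_fn_mk, one_mul]
      rw [Pi.single_eq_of_ne hl, Pi.single_eq_of_ne h5]
  rw [eq_top_iff]
  intro x _
  rw [← Finset.univ_sum_single x]
  exact A.sum_mem (fun i _ => hall i (x i))

theorem counterexample :
    ∃ (Ω : Type) (_ : Finite Ω) (G : Subgroup (Equiv.Perm Ω)),
      MulAction.IsPreprimitive G Ω ∧
      (∃ B : Finset Ω, B.card = 2 ∧ ∀ g ∈ G, (∀ x ∈ B, g x = x) → g = 1) ∧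
      (∀ B : Finset Ω, (∀ g ∈ G, (∀ x ∈ B, g x = x) → g = 1) → 2 ≤ B.card) ∧
      ∃ α β : Ω, α ≠ β ∧ ∀ γ : Ω,
        ¬ ((γ ≠ α ∧ ∃ B : Finset Ω, B.card = 2 ∧ α ∈ B ∧ γ ∈ B ∧
            ∀ g ∈ G, (∀ x ∈ B, g x = x) → g = 1) ∧
        (γ ≠ β ∧ ∃ B : Finset Ω, B.card = 2 ∧ β ∈ B ∧ γ ∈ B ∧
            ∀ g ∈ G, (∀ x ∈ B, g x = x) → g = 1)) := by
  have hg : mon (fun _ => 1) (by simp) 1 ∈ K5 := mon_mem _ _ (by simp) 1
  have hg' : mon (fun _ => 1) (by simp) 1 ≠ 1 := by
    intro h
    have h1 := congrFun (congrArg (fun f : Equiv.Perm V5 => f ![0, 1, 2]) h) 0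
    change (1 : ZMod 5) * 1 = 0 at h1
    revert h1; decide
  have : Nontrivial (ZMod 5) := ⟨0, 1, by decide⟩
  exact general_counterexample K5 K5_add K5_irr hg hg' K5_reg K5_hv0

end Pool.Agent.Work.MP_a6eddd_al
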