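import Pool.Agent.Work.MP_a6eddd_al.Wreath

set_option autoImplicit false

/-!
Primitivity of the affine wreath product, and the failure of the common neighbour property.
-/

namespace Pool.Agent.Work.MP_a6eddd_al

section general

variable {V : Type} [AddCommGroup V] (K : Subgroup (Equiv.Perm V))
variable (hadd : ∀ g ∈ K, ∀ x y : V, g (x + y) = g x + g y)

/-- translations are in the wreath product -/
theorem trans_mem {ι : Type} (t : ι → V) :
    mk 1 (fun _ => (1 : Equiv.Perm V)) t ∈ wr K hadd ι :=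
  mk_mem K hadd _ _ _ (fun _ => K.one_mem)

theorem trans_apply {ι : Type} (t x : ι → V) :
    mk 1 (fun _ => (1 : Equiv.Perm V)) t x = x + t := by
  funext i
  simp [mk_apply]

theorem wr_pretransitive (ι : Type) : MulAction.IsPretransitive (wr K hadd ι) (ι → V) := by
  refine ⟨fun x y => ⟨⟨mk 1 (fun _ => (1 : Equiv.Perm V)) (y - x), trans_mem K hadd _⟩, ?_⟩⟩
  change mk 1 (fun _ => (1 : Equiv.Perm V)) (y - x) x = y
  rw [trans_apply]
  abel

theorem wr_primitive [Finite V] {ι : Type} [Fintype ι] [DecidableEq ι]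
    (hirr : ∀ A : AddSubgroup V, (∀ g ∈ K, ∀ x ∈ A, g x ∈ A) → A = ⊥ ∨ A = ⊤)
    {g0 : Equiv.Perm V} (hg0 : g0 ∈ K) (hg0' : g0 ≠ 1) :
    MulAction.IsPreprimitive (wr K hadd ι) (ι → V) := by
  have := wr_pretransitive K hadd ι
  refine MulAction.IsPreprimitive.of_isTrivialBlock_base (0 : ι → V) ?_
  intro B h0 hB
  rw [MulAction.isBlock_iff_smul_eq_of_mem] at hB
  have key : ∀ e ∈ wr K hadd ι, ∀ a ∈ B, e a ∈ B → ∀ x ∈ B, e x ∈ B := by
    intro e he a ha hea x hx
    have h1 := hB (g := ⟨e, he⟩) ha hea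
    rw [← h1]
    exact ⟨x, hx, rfl⟩
  have hadd' : ∀ x ∈ B, ∀ t ∈ B, x + t ∈ B := by
    intro x hx t ht
    have h1 := key _ (trans_mem K hadd t) 0 h0 (by rw [trans_apply, zero_add]; exact ht) x hx
    rwa [trans_apply] at h1
  have hneg : ∀ x ∈ B, -x ∈ B := by
    intro x hx
    have h1 := key _ (trans_mem K hadd (-x)) x hx
      (by rw [trans_apply, add_neg_cancel]; exact h0) 0 h0
    rwa [trans_apply, zero_add] at h1
  have hlin : ∀ (σ : Equiv.Perm ι) (h : ι → Equiv.Perm V), (∀ i, h i ∈ K) → ∀ x ∈ B,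
      (fun i => h i (x (σ i))) ∈ B := by
    intro σ h hh x hx
    have h1 := key _ (mk_mem K hadd σ h 0 hh) 0 h0 (by
      have : mk σ h 0 (0 : ι → V) = 0 := by
        funext i
        rw [mk_apply]
        simp [map_zero' K hadd (hh i)]
      rw [this]; exact h0) x hx
    have h2 : mk σ h 0 x = fun i => h i (x (σ i)) := by
      funext i
      rw [mk_apply]
      simp
    rwa [h2] at h1
  by_cases hs : B.Subsingleton
  · exact Or.inl hs
  right
  obtain ⟨u, hu, hu0⟩ : ∃ u ∈ B, u ≠ 0 := by
    by_contra hcon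
    push Not at hcon
    apply hs
    intro x hx y hy
    rw [hcon x hx, hcon y hy]
  obtain ⟨j, hj⟩ : ∃ j, u j ≠ 0 := by
    by_contra hcon
    push Not at hcon
    exact hu0 (funext hcon)
  -- some element of `K` moves `u j`
  obtain ⟨g, hg, hgu⟩ : ∃ g ∈ K, g (u j) ≠ u j := by
    by_contra hcon
    push Not at hcon
    let F : AddSubgroup V :=
      { carrier := {x | ∀ g ∈ K, g x = x}
        add_mem' := by
          intro a b ha hb g hg
          rw [hadd g hg, ha g hg, hb g hg]
        zero_mem' := by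
          intro g hg
          exact map_zero' K hadd hg
        neg_mem' := by
          intro a ha g hg
          rw [map_neg' K hadd hg, ha g hg] }
    have hF : ∀ g ∈ K, ∀ x ∈ F, g x ∈ F := by
      intro g hg x hx
      rw [show g x = x from hx g hg]
      exact hx
    rcases hirr F hF with h1 | h1
    · have : u j ∈ F := hcon
      rw [h1] at this
      exact hj (by simpa using this)
    · apply hg0'
      ext x
      have : x ∈ F := by rw [h1]; trivial
      simpa using this g0 hg0
  -- one-coordinate vectors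
  let A : AddSubgroup V :=
    { carrier := {x | (Pi.single j x : ι → V) ∈ B}
      add_mem' := by
        intro a b ha hb
        have h1 := hadd' _ ha _ hb
        rw [← Pi.single_add] at h1
        exact h1
      zero_mem' := by
        change (Pi.single j 0 : ι → V) ∈ B
        rw [Pi.single_zero]; exact h0
      neg_mem' := by
        intro a ha
        have h1 := hneg _ ha
        rw [← Pi.single_neg] at h1
        exact h1 }
  have hA : ∀ g ∈ K, ∀ x ∈ A, g x ∈ A := by
    intro g hg x hx
    have h1 := hlin 1 (fun _ => g) (fun _ => hg) _ hx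
    have h2 : (fun i => g ((Pi.single j x : ι → V) ((1 : Equiv.Perm ι) i))) =
        (Pi.single j (g x) : ι → V) := by
      funext i
      by_cases hi : i = j
      · subst hi; simp
      · simp [Pi.single_eq_of_ne hi, map_zero' K hadd hg]
    rw [h2] at h1
    exact h1
  have hAtop : A = ⊤ := by
    rcases hirr A hA with h1 | h1
    · exfalso
      have h2 : g (u j) - u j ∈ A := by
        change (Pi.single j (g (u j) - u j) : ι → V) ∈ B
        have hK : ∀ i, (Function.update (fun _ => (1 : Equiv.Perm V)) j g : ι → Equiv.Perm V) i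
            ∈ K := by
          intro i
          by_cases hi : i = j
          · subst hi; simpa using hg
          · simpa [Function.update_of_ne hi] using K.one_mem
        have h3 := hadd' _ (hlin 1 (Function.update (fun _ => (1 : Equiv.Perm V)) j g) hK u hu) _
          (hneg u hu)
        convert h3 using 1
        funext i
        by_cases hi : i = j
        · subst hi; simp [sub_eq_add_neg]
        · simp [Pi.single_eq_of_ne hi, Function.update_of_ne hi]
      rw [h1] at h2
      exact hgu (sub_eq_zero.mp (by simpa using h2))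
    · exact h1
  have hsingle : ∀ (i : ι) (x : V), (Pi.single i x : ι → V) ∈ B := by
    intro i x
    have hx : (Pi.single j x : ι → V) ∈ B := by
      have : x ∈ A := by rw [hAtop]; trivial
      exact this
    have h1 := hlin (Equiv.swap i j) (fun _ => 1) (fun _ => K.one_mem) _ hx
    have h2 : (fun l => (1 : Equiv.Perm V) ((Pi.single j x : ι → V) (Equiv.swap i j l))) =
        (Pi.single i x : ι → V) := by
      funext l
      by_cases hl : l = i
      · subst hl; simp
      · by_cases hl' : l = j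
        · subst hl'
          simp only [Equiv.swap_apply_right, Equiv.Perm.coe_one, id_eq]
          rw [Pi.single_eq_of_ne (Ne.symm hl), Pi.single_eq_of_ne hl]
        · rw [Equiv.swap_apply_of_ne_of_ne hl hl']
          simp [Pi.single_eq_of_ne hl, Pi.single_eq_of_ne hl']
    rw [h2] at h1
    exact h1
  ext x
  simp only [Set.mem_univ, iff_true]
  rw [← Finset.univ_sum_single x]
  have : ∀ s : Finset ι, (∑ i ∈ s, Pi.single i (x i) : ι → V) ∈ B := by
    intro s
    induction s using Finset.induction_on with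
    | empty => simpa using h0
    | insert a s ha ih =>
      rw [Finset.sum_insert ha]
      exact hadd' _ (hsingle a (x a)) _ ih
  exact this _

/-- the standard base of size two -/
theorem base2_out : Base2 K hadd (0 : Idx K → V) (fun i => (Quotient.out i : Reg K).1) := by
  intro e he h0 h1
  obtain ⟨σ, k, t, hK, hk⟩ := he
  have ht : ∀ i, t i = 0 := by
    intro i
    have := congrFun h0 i
    rw [hk] at this
    simpa [map_zero' K hadd (hK i)] using this
  have h2 : ∀ i, k i ((Quotient.out (σ i) : Reg K).1) = (Quotient.out i : Reg K).1 := by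
    intro i
    have := congrFun h1 i
    rw [hk, ht i] at this
    simpa using this
  have h3 : ∀ i, σ i = i := by
    intro i
    have h4 : cls K (Quotient.out (σ i)) = cls K (Quotient.out i) :=
      cls_eq K ⟨k i, hK i, h2 i⟩
    have h5 : cls K (Quotient.out (σ i)) = σ i := Quotient.out_eq _
    have h6 : cls K (Quotient.out i) = i := Quotient.out_eq _
    rw [← h5, h4, h6]
  have h7 : ∀ i, k i = 1 := by
    intro i
    have := h2 i
    rw [h3 i] at this
    exact (Quotient.out i : Reg K).2 _ (hK i) this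
  ext x i
  rw [hk, h3 i, h7 i, ht i]
  simp

theorem two_le_card {ι : Type} [Nonempty ι] {g0 : Equiv.Perm V} (hg0 : g0 ∈ K) (hg0' : g0 ≠ 1)
    (B : Finset (ι → V)) (hB : ∀ g ∈ wr K hadd ι, (∀ x ∈ B, g x = x) → g = 1) :
    2 ≤ B.card := by
  by_contra hcon
  have hle : B.card ≤ 1 := by omega
  obtain ⟨x, hx⟩ := Finset.card_le_one_iff_subset_singleton.mp hle
  have h1 := hB (mk 1 (fun _ => g0) (fun i => x i - g0 (x i)))
    (mk_mem K hadd _ _ _ (fun _ => hg0)) ?_
  · apply hg0'
    obtain ⟨i⟩ := ‹Nonempty ι›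
    ext v
    have h2 := congrFun (congrArg (fun f : Equiv.Perm (ι → V) => f (fun l => x l + v)) h1) i
    simp only [mk_apply, Equiv.Perm.coe_one, id_eq] at h2
    rw [hadd g0 hg0] at h2
    have h3 : g0 v + x i = v + x i := by
      rw [add_comm v, ← h2]; abel
    simpa using add_right_cancel h3
  · intro y hy
    have hy' : y = x := by simpa using hx hy
    subst hy'
    funext i
    rw [mk_apply]
    simp

theorem base2_of_card_two {ι : Type} {α γ : ι → V} (hne : γ ≠ α) {B : Finset (ι → V)}
    (hc : B.card = 2) (hα : α ∈ B) (hγ : γ ∈ B)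
    (hB : ∀ g ∈ wr K hadd ι, (∀ x ∈ B, g x = x) → g = 1) : Base2 K hadd α γ := by
  classical
  intro e he h1 h2
  apply hB e he
  intro x hx
  have hsub : ({α, γ} : Finset (ι → V)) ⊆ B := by
    intro y hy
    simp only [Finset.mem_insert, Finset.mem_singleton] at hy
    rcases hy with rfl | rfl
    · exact hα
    · exact hγ
  have heq := Finset.eq_of_subset_of_card_le hsub (by
    rw [hc, Finset.card_pair (Ne.symm hne)])
  rw [← heq] at hx
  simp only [Finset.mem_insert, Finset.mem_singleton] at hx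
  rcases hx with rfl | rfl
  · exact h1
  · exact h2

/-- the two points have no common neighbour -/
theorem no_common [Finite V] [Nontrivial V] [DecidableEq (Idx K)] {v0 : V}
    (hv0 : ∀ g ∈ K, ∀ w : V, g w - w ≠ v0) (i0 : Idx K) (γ : Idx K → V)
    (h1 : Base2 K hadd 0 γ) (h2 : Base2 K hadd (Pi.single i0 v0) γ) : False := by
  have h3 := base2_translate K hadd h2
  set δ : Idx K → V := γ - Pi.single i0 v0 with hδ
  let f : Idx K → Idx K := fun i => cls K ⟨γ i, reg_of_base2 K hadd h1 i⟩
  let f' : Idx K → Idx K := fun i => cls K ⟨δ i, reg_of_base2 K hadd h3 i⟩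
  have hf : Function.Injective f := by
    intro i j hij
    by_contra hne
    exact inj_of_base2 K hadd h1 hne (cls_eq' K hij)
  have hf' : Function.Injective f' := by
    intro i j hij
    by_contra hne
    exact inj_of_base2 K hadd h3 hne (cls_eq' K hij)
  have : Finite (Idx K) := by
    have : Finite (Reg K) := by
      unfold Reg; infer_instance
    unfold Idx
    infer_instance
  have hsurj : Function.Surjective f' := Finite.surjective_of_injective hf'
  have hoff : ∀ i, i ≠ i0 → f' i = f i := by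
    intro i hi
    have : δ i = γ i := by
      rw [hδ]
      simp [Pi.single_eq_of_ne hi]
    apply cls_eq
    exact ⟨1, K.one_mem, by simpa using this⟩
  obtain ⟨j, hj⟩ := hsurj (f i0)
  by_cases hji : j = i0
  · subst hji
    obtain ⟨g, hg, hg'⟩ := cls_eq' K hj
    have hδj : δ j = γ j - v0 := by
      rw [hδ]
      simp
    have hg2 : g (δ j) = γ j := hg'
    apply hv0 g hg (δ j)
    rw [hg2, hδj]
    abel
  · rw [hoff j hji] at hj
    exact hji (hf hj)

/-- the general facts -/
theorem general_facts [Finite V] [Nontrivial V]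
    (hirr : ∀ A : AddSubgroup V, (∀ g ∈ K, ∀ x ∈ A, g x ∈ A) → A = ⊥ ∨ A = ⊤)
    {g0 : Equiv.Perm V} (hg0 : g0 ∈ K) (hg0' : g0 ≠ 1)
    {u : V} (hu : ∀ g ∈ K, g u = u → g = 1)
    {v0 : V} (hv0 : ∀ g ∈ K, ∀ w : V, g w - w ≠ v0) :
      MulAction.IsPreprimitive (wr K hadd (Idx K)) (Idx K → V) ∧
      (∃ B : Finset (Idx K → V), B.card = 2 ∧
        ∀ g ∈ wr K hadd (Idx K), (∀ x ∈ B, g x = x) → g = 1) ∧
      (∀ B : Finset (Idx K → V), (∀ g ∈ wr K hadd (Idx K), (∀ x ∈ B, g x = x) → g = 1) →
        2 ≤ B.card) ∧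
      ∃ α β : Idx K → V, α ≠ β ∧ ∀ γ : Idx K → V,
        ¬ ((γ ≠ α ∧ ∃ B : Finset (Idx K → V), B.card = 2 ∧ α ∈ B ∧ γ ∈ B ∧
            ∀ g ∈ wr K hadd (Idx K), (∀ x ∈ B, g x = x) → g = 1) ∧
        (γ ≠ β ∧ ∃ B : Finset (Idx K → V), B.card = 2 ∧ β ∈ B ∧ γ ∈ B ∧
            ∀ g ∈ wr K hadd (Idx K), (∀ x ∈ B, g x = x) → g = 1)) := by
  classical
  have : Finite (Reg K) := by
    unfold Reg; infer_instance
  have : Finite (Idx K) := by
    unfold Idx; infer_instance
  have : Fintype (Idx K) := Fintype.ofFinite _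
  let i0 : Idx K := cls K ⟨u, hu⟩
  have : Nonempty (Idx K) := ⟨i0⟩
  refine ⟨wr_primitive K hadd hirr hg0 hg0', ?_,
    fun B hB => two_le_card K hadd hg0 hg0' B hB, 0, Pi.single i0 v0, ?_, ?_⟩
  · refine ⟨{0, fun i => (Quotient.out i : Reg K).1}, ?_, ?_⟩
    · apply Finset.card_pair
      intro h
      have h1 := congrFun h i0
      have h2 := (Quotient.out i0 : Reg K).2 g0 hg0
      apply hg0'
      apply h2
      rw [← h1]
      exact map_zero' K hadd hg0
    · intro g hg hfix
      apply base2_out K hadd g hg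
      · exact hfix _ (Finset.mem_insert_self _ _)
      · exact hfix _ (Finset.mem_insert_of_mem (Finset.mem_singleton_self _))
  · intro h
    have h1 := congrFun h i0
    apply hv0 1 K.one_mem 0
    simpa using h1
  · rintro γ ⟨⟨hγ1, B1, hc1, ha1, hg1, hb1⟩, ⟨hγ2, B2, hc2, ha2, hg2, hb2⟩⟩
    exact no_common K hadd hv0 i0 γ (base2_of_card_two K hadd hγ1 hc1 ha1 hg1 hb1)
      (base2_of_card_two K hadd hγ2 hc2 ha2 hg2 hb2)

include hadd in
/-- the general counterexample -/
theorem general_counterexample [Finite V] [Nontrivial V]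
    (hirr : ∀ A : AddSubgroup V, (∀ g ∈ K, ∀ x ∈ A, g x ∈ A) → A = ⊥ ∨ A = ⊤)
    {g0 : Equiv.Perm V} (hg0 : g0 ∈ K) (hg0' : g0 ≠ 1)
    {u : V} (hu : ∀ g ∈ K, g u = u → g = 1)
    {v0 : V} (hv0 : ∀ g ∈ K, ∀ w : V, g w - w ≠ v0) :
    ∃ (Ω : Type) (_ : Finite Ω) (G : Subgroup (Equiv.Perm Ω)),
      MulAction.IsPreprimitive G Ω ∧
      (∃ B : Finset Ω, B.card = 2 ∧ ∀ g ∈ G, (∀ x ∈ B, g x = x) → g = 1) ∧
      (∀ B : Finset Ω, (∀ g ∈ G, (∀ x ∈ B, g x = x) → g = 1) → 2 ≤ B.card) ∧
      ∃ α β : Ω, α ≠ β ∧ ∀ γ : Ω,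
        ¬ ((γ ≠ α ∧ ∃ B : Finset Ω, B.card = 2 ∧ α ∈ B ∧ γ ∈ B ∧
            ∀ g ∈ G, (∀ x ∈ B, g x = x) → g = 1) ∧
        (γ ≠ β ∧ ∃ B : Finset Ω, B.card = 2 ∧ β ∈ B ∧ γ ∈ B ∧
            ∀ g ∈ G, (∀ x ∈ B, g x = x) → g = 1)) := by
  have : Finite (Reg K) := by
    unfold Reg; infer_instance
  have : Finite (Idx K) := by
    unfold Idx; infer_instance
  exact ⟨Idx K → V, inferInstance, wr K hadd (Idx K),
    general_facts K hadd hirr hg0 hg0' hu hv0⟩

end general

end Pool.Agent.Work.MP_a6eddd_al
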