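import Mathlib

set_option autoImplicit false

/-!
The affine wreath product `(V : K) wr Sym(ι)` acting on `ι → V`, where `ι` is the set of regular
`K`-orbits on `V`.  If some `v0 : V` is not of the form `g w - w` with `g ∈ K`, then the points
`0` and `Pi.single i v0` have no common neighbour in the Saxl graph.
-/

namespace Pool.Agent.Work.MP_a6eddd_al

theorem app_inv {α : Type} (e : Equiv.Perm α) (x : α) : e (e⁻¹ x) = x :=
  Equiv.apply_symm_apply e x

theorem inv_app {α : Type} (e : Equiv.Perm α) (x : α) : e⁻¹ (e x) = x :=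
  Equiv.symm_apply_apply e x

section general

variable {V : Type} [AddCommGroup V] (K : Subgroup (Equiv.Perm V))

/-- the vectors with trivial stabiliser in `K` -/
def Reg : Type := {u : V // ∀ g ∈ K, g u = u → g = 1}

/-- being in the same `K`-orbit -/
def orbSetoid : Setoid (Reg K) where
  r u w := ∃ g ∈ K, g u.1 = w.1
  iseqv :=
    { refl := fun u => ⟨1, K.one_mem, rfl⟩
      symm := by
        rintro u w ⟨g, hg, h⟩
        refine ⟨g⁻¹, K.inv_mem hg, ?_⟩
        rw [← h]
        exact inv_app g u.1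
      trans := by
        rintro u w x ⟨g, hg, h⟩ ⟨g', hg', h'⟩
        refine ⟨g' * g, K.mul_mem hg' hg, ?_⟩
        rw [← h', ← h]
        rfl }

/-- the set of regular orbits -/
def Idx : Type := Quotient (orbSetoid K)

/-- class of a regular vector -/
def cls (u : Reg K) : Idx K := Quotient.mk (orbSetoid K) u

theorem cls_eq {u w : Reg K} (h : ∃ g ∈ K, g u.1 = w.1) : cls K u = cls K w :=
  Quotient.sound h

theorem cls_eq' {u w : Reg K} (h : cls K u = cls K w) : ∃ g ∈ K, g u.1 = w.1 :=
  Quotient.exact h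

/-- the affine wreath product as a permutation group of `ι → V` -/
def wr (hadd : ∀ g ∈ K, ∀ x y : V, g (x + y) = g x + g y) (ι : Type) :
    Subgroup (Equiv.Perm (ι → V)) where
  carrier := {e | ∃ (σ : Equiv.Perm ι) (h : ι → Equiv.Perm V) (t : ι → V), (∀ i, h i ∈ K) ∧
    ∀ x i, e x i = h i (x (σ i)) + t i}
  mul_mem' := by
    rintro e e' ⟨σ, h, t, hK, he⟩ ⟨σ', h', t', hK', he'⟩
    refine ⟨σ' * σ, fun i => h i * h' (σ i), fun i => h i (t' (σ i)) + t i,
      fun i => K.mul_mem (hK i) (hK' _), ?_⟩
    intro x i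
    rw [Equiv.Perm.mul_apply, he, he', hadd _ (hK i), Equiv.Perm.mul_apply, add_assoc]
    rfl
  one_mem' := ⟨1, fun _ => 1, 0, fun _ => K.one_mem, fun x i => by simp⟩
  inv_mem' := by
    rintro e ⟨σ, h, t, hK, he⟩
    refine ⟨σ⁻¹, fun i => (h (σ⁻¹ i))⁻¹, fun i => (h (σ⁻¹ i))⁻¹ (- (t (σ⁻¹ i))),
      fun i => K.inv_mem (hK _), ?_⟩
    intro x i
    have h1 : e (e⁻¹ x) (σ⁻¹ i) = x (σ⁻¹ i) := by
      rw [app_inv]
    rw [he, app_inv] at h1
    rw [← hadd _ (K.inv_mem (hK _)), ← h1, add_neg_cancel_right, inv_app]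

/-- an element of the wreath product -/
def mk {ι : Type} (σ : Equiv.Perm ι) (h : ι → Equiv.Perm V) (t : ι → V) :
    Equiv.Perm (ι → V) where
  toFun x i := h i (x (σ i)) + t i
  invFun x i := (h (σ.symm i)).symm (x (σ.symm i) - t (σ.symm i))
  left_inv x := by
    funext i
    simp
  right_inv x := by
    funext i
    simp

theorem mk_apply {ι : Type} (σ : Equiv.Perm ι) (h : ι → Equiv.Perm V) (t : ι → V)
    (x : ι → V) (i : ι) : mk σ h t x i = h i (x (σ i)) + t i := rfl

variable (hadd : ∀ g ∈ K, ∀ x y : V, g (x + y) = g x + g y)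

theorem mk_mem {ι : Type} (σ : Equiv.Perm ι) (h : ι → Equiv.Perm V) (t : ι → V)
    (hK : ∀ i, h i ∈ K) : mk σ h t ∈ wr K hadd ι :=
  ⟨σ, h, t, hK, fun _ _ => rfl⟩

include hadd in
theorem map_zero' {g : Equiv.Perm V} (hg : g ∈ K) : g 0 = 0 := by
  have := hadd g hg 0 0
  simpa using this

include hadd in
theorem map_neg' {g : Equiv.Perm V} (hg : g ∈ K) (x : V) : g (-x) = - g x := by
  have h := hadd g hg x (-x)
  rw [add_neg_cancel, map_zero' K hadd hg] at h
  exact (neg_eq_of_add_eq_zero_right h.symm).symm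

include hadd in
theorem map_sub' {g : Equiv.Perm V} (hg : g ∈ K) (x y : V) : g (x - y) = g x - g y := by
  rw [sub_eq_add_neg, hadd g hg, map_neg' K hadd hg, sub_eq_add_neg]

/-- the pair `α`, `γ` is a base -/
def Base2 {ι : Type} (α γ : ι → V) : Prop :=
  ∀ e ∈ wr K hadd ι, e α = α → e γ = γ → e = 1

/-- translating a base of size two -/
theorem base2_translate {ι : Type} {α γ : ι → V} (h : Base2 K hadd α γ) :
    Base2 K hadd (0 : ι → V) (γ - α) := by
  intro e he h0 h1
  obtain ⟨σ, k, t, hK, hk⟩ := he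
  have ht : ∀ i, t i = 0 := by
    intro i
    have := congrFun h0 i
    rw [hk] at this
    simpa [map_zero' K hadd (hK i)] using this
  -- conjugate by the translation by `α`
  have key := h (mk σ k (fun i => α i - k i (α (σ i)))) (mk_mem K hadd _ _ _ hK) ?_ ?_
  · ext x i
    have h2 := congrFun (congrArg (fun f : Equiv.Perm (ι → V) => f (x + α)) key) i
    simp only [mk_apply, Equiv.Perm.coe_one, id_eq, Pi.add_apply] at h2
    rw [hadd _ (hK i)] at h2
    rw [hk, ht i]
    have h3 : k i (x (σ i)) + α i = x i + α i := by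
      rw [← h2]; abel
    simpa using add_right_cancel h3
  · funext i
    rw [mk_apply]; abel
  · funext i
    rw [mk_apply]
    have h4 := congrFun h1 i
    rw [hk, ht i] at h4
    simp only [Pi.sub_apply, add_zero] at h4
    rw [map_sub' K hadd (hK i)] at h4
    have h5 : k i (γ (σ i)) = k i (α (σ i)) + (γ i - α i) := by
      rw [← h4]; abel
    rw [h5]; abel

/-- coordinates of a base of the form `0, δ` are regular -/
theorem reg_of_base2 {ι : Type} [DecidableEq ι] {δ : ι → V}
    (h : Base2 K hadd (0 : ι → V) δ) (i : ι) :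
    ∀ g ∈ K, g (δ i) = δ i → g = 1 := by
  intro g hg hgi
  have hK : ∀ j, (Function.update (fun _ => (1 : Equiv.Perm V)) i g : ι → Equiv.Perm V) j ∈ K := by
    intro j
    by_cases hj : j = i
    · subst hj; simpa using hg
    · simpa [Function.update_of_ne hj] using K.one_mem
  have key := h (mk 1 (Function.update (fun _ => 1) i g) 0) (mk_mem K hadd _ _ _ hK) ?_ ?_
  · ext x
    have h2 := congrFun (congrArg (fun f : Equiv.Perm (ι → V) => f (fun _ => x)) key) i
    simpa [mk_apply] using h2
  · funext j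
    rw [mk_apply]
    simp [map_zero' K hadd (hK j)]
  · funext j
    rw [mk_apply]
    by_cases hj : j = i
    · subst hj; simpa using hgi
    · simp [Function.update_of_ne hj]

/-- distinct coordinates of a base of the form `0, δ` are in distinct orbits -/
theorem inj_of_base2 {ι : Type} [DecidableEq ι] [Nontrivial V] {δ : ι → V}
    (h : Base2 K hadd (0 : ι → V) δ) {i j : ι} (hij : i ≠ j) :
    ¬ ∃ g ∈ K, g (δ i) = δ j := by
  rintro ⟨g, hg, hgi⟩
  set k : ι → Equiv.Perm V :=
    Function.update (Function.update (fun _ => (1 : Equiv.Perm V)) i g⁻¹) j g with hkdef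
  have hkj : k j = g := by simp [hkdef]
  have hki : k i = g⁻¹ := by simp [hkdef, Function.update_of_ne hij]
  have hko : ∀ l, l ≠ i → l ≠ j → k l = 1 := by
    intro l h1 h2
    simp [hkdef, Function.update_of_ne h1, Function.update_of_ne h2]
  have hK : ∀ l, k l ∈ K := by
    intro l
    by_cases h1 : l = j
    · rw [h1, hkj]; exact hg
    · by_cases h2 : l = i
      · rw [h2, hki]; exact K.inv_mem hg
      · rw [hko l h2 h1]; exact K.one_mem
  have key := h (mk (Equiv.swap i j) k 0) (mk_mem K hadd _ _ _ hK) ?_ ?_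
  · obtain ⟨w, hw⟩ := exists_ne (0 : V)
    have h2 := congrFun (congrArg (fun f : Equiv.Perm (ι → V) => f (Pi.single i w)) key) j
    rw [mk_apply] at h2
    rw [Equiv.swap_apply_right, hkj] at h2
    simp only [Pi.single_eq_same, Pi.zero_apply, add_zero, Equiv.Perm.coe_one, id_eq] at h2
    rw [Pi.single_eq_of_ne (Ne.symm hij)] at h2
    apply hw
    have h3 := map_zero' K hadd hg
    exact g.injective (h2.trans h3.symm)
  · funext l
    rw [mk_apply]
    simp [map_zero' K hadd (hK l)]
  · funext l
    rw [mk_apply]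
    by_cases h1 : l = j
    · subst h1
      rw [Equiv.swap_apply_right, hkj]
      simpa using hgi
    · by_cases h2 : l = i
      · subst h2
        rw [Equiv.swap_apply_left, hki, ← hgi, inv_app]
        simp
      · rw [Equiv.swap_apply_of_ne_of_ne h2 h1, hko l h2 h1]
        simp

end general

end Pool.Agent.Work.MP_a6eddd_al
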